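import Pool.Agent.R244.RB.Fou

/-!
# Exponential Riesz bases for overlapping symmetric additive measures

`ρ_t` is half the sum of Lebesgue measure on the segment `[t, t+1]` of the first axis and of
Lebesgue measure on the segment `[t, t+1]` of the second axis.  For every real `t` which is not an
integer, in particular for all `t ∈ [-1/2, 0)`, the space `L²(ρ_t)` has a Riesz basis of
exponentials.

Proof.  `L²(ρ_t)` is `L²(I) ⊕ L²(I)`, `I = [t, t+1]`, and `e_{a,b}` becomes `(e_a, e_b)`.  Take the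
frequencies `(n, β_n - 1/2)` and `(a_m, m)`, `n, m ∈ ℤ`, where `a_m = m` except that
`a_{2dk+d} = 2dk`, and where `β_n ∈ 2dℤ` is very sparse.  The synthesis operator is
`(c, d) ↦ (c + A d, B c + d)` with `A e_m = e_{a_m}`, `B e_n = e_{β_n - 1/2}`.  By a computation,
`‖A e_β‖² ≤ 1 + 2 cos (2πdt) / (π² (1/2) (d + 1/2))` for `β ∈ 2dℤ - 1/2`, which is less than `1` for
a suitable `d`, and for a sparse sequence `β_n` it follows that `‖A B‖ < 1`.
-/

set_option autoImplicit false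

open MeasureTheory Set
open scoped ENNReal

namespace Pool.Agent.Results.MP_1d4ba1_an.ExponentialRieszBasis

/-- `ρ_t = (μ_t × δ_0 + δ_0 × μ_t) / 2`, where `μ_t` is Lebesgue measure on `[t, t + 1]`. -/
noncomputable def rho (t : ℝ) : Measure (ℝ × ℝ) :=
  (1 / 2 : ℝ≥0∞) • ((volume.restrict (Icc t (t + 1))).prod (Measure.dirac 0) +
    (Measure.dirac 0).prod (volume.restrict (Icc t (t + 1))))

/-- `e_{a,b}(x, y) = exp (2πi(ax + by))`, for `p = (a, b)` and `z = (x, y)`. -/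
noncomputable def expo (p z : ℝ × ℝ) : ℂ :=
  Complex.exp (2 * Real.pi * Complex.I * (p.1 * z.1 + p.2 * z.2))

/-- The system `E(Λ)` of the `e_{a,b}`, `(a, b) ∈ Λ`, is complete in `L²(ρ)`: the finite linear
combinations are dense. -/
def Complete (ρ : Measure (ℝ × ℝ)) (Λ : Set (ℝ × ℝ)) : Prop :=
  ∀ F : ℝ × ℝ → ℂ, MemLp F 2 ρ → ∀ ε : ℝ, 0 < ε →
    ∃ (s : Finset (ℝ × ℝ)) (c : ℝ × ℝ → ℂ), (s : Set (ℝ × ℝ)) ⊆ Λ ∧
      ∫ z, ‖F z - ∑ p ∈ s, c p * expo p z‖ ^ 2 ∂ρ < ε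

/-- The Riesz inequalities for `E(Λ)` in `L²(ρ)`. -/
def RieszSequence (ρ : Measure (ℝ × ℝ)) (Λ : Set (ℝ × ℝ)) : Prop :=
  ∃ A B : ℝ, 0 < A ∧ 0 < B ∧ ∀ (s : Finset (ℝ × ℝ)) (c : ℝ × ℝ → ℂ), (s : Set (ℝ × ℝ)) ⊆ Λ →
    A * ∑ p ∈ s, ‖c p‖ ^ 2 ≤ ∫ z, ‖∑ p ∈ s, c p * expo p z‖ ^ 2 ∂ρ ∧
    ∫ z, ‖∑ p ∈ s, c p * expo p z‖ ^ 2 ∂ρ ≤ B * ∑ p ∈ s, ‖c p‖ ^ 2

open Pool.Agent.R244.RB

theorem rho_eq (t : ℝ) : rho t = (1 / 2 : ℝ≥0∞) • (Measure.map (fun x : ℝ => (x, (0 : ℝ))) (nu t) +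
    Measure.map (Prod.mk (0 : ℝ)) (nu t)) := by
  have h : volume.restrict (Icc t (t + 1)) = nu t :=
    (Measure.restrict_congr_set Ioc_ae_eq_Icc).symm
  rw [rho, h, Measure.prod_dirac, Measure.dirac_prod]

theorem meas1 : Measurable (fun x : ℝ => (x, (0 : ℝ))) := by fun_prop

theorem meas2 : Measurable (Prod.mk (0 : ℝ) : ℝ → ℝ × ℝ) := by fun_prop

theorem le1 (t : ℝ) : Measure.map (fun x : ℝ => (x, (0 : ℝ))) (nu t) ≤ (2 : ℝ≥0∞) • rho t := by
  rw [rho_eq, smul_smul]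
  have : (2 : ℝ≥0∞) * (1 / 2) = 1 := by
    rw [one_div, ENNReal.mul_inv_cancel (by norm_num) (by norm_num)]
  rw [this, one_smul]
  exact Measure.le_add_right le_rfl

theorem le2 (t : ℝ) : Measure.map (Prod.mk (0 : ℝ)) (nu t) ≤ (2 : ℝ≥0∞) • rho t := by
  rw [rho_eq, smul_smul]
  have : (2 : ℝ≥0∞) * (1 / 2) = 1 := by
    rw [one_div, ENNReal.mul_inv_cancel (by norm_num) (by norm_num)]
  rw [this, one_smul]
  exact Measure.le_add_left le_rfl

theorem mem1 {t : ℝ} {F : ℝ × ℝ → ℂ} (hF : MemLp F 2 (rho t)) :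
    MemLp (fun x => F (x, 0)) 2 (nu t) := by
  have h := hF.of_measure_le_smul (by norm_num) (le1 t)
  exact (memLp_map_measure_iff h.1 meas1.aemeasurable).1 h

theorem mem2 {t : ℝ} {F : ℝ × ℝ → ℂ} (hF : MemLp F 2 (rho t)) :
    MemLp (fun y => F (0, y)) 2 (nu t) := by
  have h := hF.of_measure_le_smul (by norm_num) (le2 t)
  exact (memLp_map_measure_iff h.1 meas2.aemeasurable).1 h

theorem int_rho (t : ℝ) (G : ℝ × ℝ → ℝ) (hG : Integrable G (rho t)) :
    ∫ z, G z ∂(rho t) = 1 / 2 * (∫ x, G (x, 0) ∂(nu t) + ∫ y, G (0, y) ∂(nu t)) := by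
  rw [rho_eq] at hG ⊢
  have h1 : Integrable G (Measure.map (fun x : ℝ => (x, (0 : ℝ))) (nu t) +
      Measure.map (Prod.mk (0 : ℝ)) (nu t)) := by
    rwa [integrable_smul_measure (by norm_num) (by norm_num)] at hG
  rw [integral_smul_measure, integral_add_measure h1.left_of_add_measure h1.right_of_add_measure,
    integral_map meas1.aemeasurable h1.left_of_add_measure.1,
    integral_map meas2.aemeasurable h1.right_of_add_measure.1]
  simp

theorem expo1 (p : ℝ × ℝ) (x : ℝ) : expo p (x, 0) = ef p.1 x := by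
  simp [expo, ef]

theorem expo2 (p : ℝ × ℝ) (y : ℝ) : expo p (0, y) = ef p.2 y := by
  simp [expo, ef]

theorem comb_coe {ι : Type*} (t : ℝ) (s : Finset ι) (w : ι → ℂ) (γ : ι → ℝ) :
    (∑ i ∈ s, w i • EE t (γ i) : Lp ℂ 2 (nu t)) =ᵐ[nu t] fun x => ∑ i ∈ s, w i * ef (γ i) x := by
  classical
  induction s using Finset.induction_on with
  | empty =>
    simp only [Finset.sum_empty]
    exact Lp.coeFn_zero _ _ _
  | insert i s hi ih =>
    rw [Finset.sum_insert hi]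
    filter_upwards [Lp.coeFn_add (w i • EE t (γ i)) (∑ i ∈ s, w i • EE t (γ i)),
      Lp.coeFn_smul (w i) (EE t (γ i)), EE_coe t (γ i), ih] with x h1 h2 h3 h4
    rw [h1, Pi.add_apply, h2, Pi.smul_apply, h3, h4, Finset.sum_insert hi, smul_eq_mul]

theorem expo_cont (p : ℝ × ℝ) : Continuous (expo p) := by
  unfold expo
  fun_prop

theorem fin_rho (t : ℝ) : IsFiniteMeasure (rho t) := by
  rw [rho_eq]
  have : IsFiniteMeasure (Measure.map (fun x : ℝ => (x, (0 : ℝ))) (nu t) +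
      Measure.map (Prod.mk (0 : ℝ)) (nu t)) := inferInstance
  exact Measure.smul_finite _ (by norm_num)

theorem expo_norm (p z : ℝ × ℝ) : ‖expo p z‖ = 1 := by
  have : (2 * Real.pi * Complex.I * (p.1 * z.1 + p.2 * z.2) : ℂ) =
      ((2 * Real.pi * (p.1 * z.1 + p.2 * z.2) : ℝ) : ℂ) * Complex.I := by
    push_cast; ring
  rw [expo, this, Complex.norm_exp_ofReal_mul_I]

theorem comb_mem (t : ℝ) (s : Finset (ℝ × ℝ)) (c : ℝ × ℝ → ℂ) :
    MemLp (fun z => ∑ p ∈ s, c p * expo p z) 2 (rho t) := by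
  have := fin_rho t
  apply memLp_finsetSum
  intro p _
  apply MemLp.const_mul
  exact MemLp.of_bound (expo_cont p).aestronglyMeasurable 1 (ae_of_all _ fun z => (expo_norm p z).le)

/-- The integral over `ρ_t` of the square of a difference. -/
theorem int_sq (t : ℝ) {F : ℝ × ℝ → ℂ} (hF : MemLp F 2 (rho t)) (U V : Lp ℂ 2 (nu t))
    (hU : U =ᵐ[nu t] fun x => F (x, 0)) (hV : V =ᵐ[nu t] fun y => F (0, y)) :
    ∫ z, ‖F z‖ ^ 2 ∂(rho t) = 1 / 2 * (‖U‖ ^ 2 + ‖V‖ ^ 2) := by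
  rw [int_rho t _ (by simpa using hF.integrable_norm_pow (by norm_num)), normsq, normsq]
  congr 2
  · apply integral_congr_ae
    filter_upwards [hU] with x hx
    rw [hx]
  · apply integral_congr_ae
    filter_upwards [hV] with x hx
    rw [hx]

/-- The frequencies. -/
noncomputable def fr (a β : ℤ → ℤ) : ℤ ⊕ ℤ → ℝ × ℝ :=
  Sum.elim (fun n => ((n : ℝ), (β n : ℝ) - 1 / 2)) (fun m => ((a m : ℝ), (m : ℝ)))

theorem fr_inj (a β : ℤ → ℤ) : Function.Injective (fr a β) := by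
  rintro (n | m) (n' | m') h
  · simp only [fr, Sum.elim_inl, Prod.mk.injEq, Int.cast_inj] at h
    rw [h.1]
  · exfalso
    simp only [fr, Sum.elim_inl, Sum.elim_inr, Prod.mk.injEq] at h
    have h1 : (2 * β n - 1 : ℤ) = 2 * m' := by
      have : (2 * (β n : ℝ) - 1) = 2 * (m' : ℝ) := by linarith [h.2]
      exact_mod_cast this
    omega
  · exfalso
    simp only [fr, Sum.elim_inl, Sum.elim_inr, Prod.mk.injEq] at h
    have h1 : (2 * β n' - 1 : ℤ) = 2 * m := by
      have : (2 * (β n' : ℝ) - 1) = 2 * (m : ℝ) := by linarith [h.2]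
      exact_mod_cast this
    omega
  · simp only [fr, Sum.elim_inr, Prod.mk.injEq, Int.cast_inj] at h
    rw [h.2]

section

variable {t : ℝ} {a β : ℤ → ℤ} {A B : Lp ℂ 2 (nu t) →L[ℂ] Lp ℂ 2 (nu t)}

theorem U_eq (hA : ∀ m : ℤ, A (EE t m) = EE t (a m)) (s : Finset (ℤ ⊕ ℤ)) (w : ℤ ⊕ ℤ → ℂ) :
    ∑ i ∈ s, w i • EE t (fr a β i).1 =
      (∑ n ∈ s.toLeft, w (Sum.inl n) • EE t n) + A (∑ m ∈ s.toRight, w (Sum.inr m) • EE t m) := by
  conv_lhs => rw [← Finset.toLeft_disjSum_toRight (u := s)]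
  rw [Finset.sum_disjSum, map_sum]
  congr 1
  refine Finset.sum_congr rfl fun m _ => ?_
  rw [map_smul, hA]
  rfl

theorem V_eq (hB : ∀ n : ℤ, B (EE t n) = EE t (β n - 1 / 2)) (s : Finset (ℤ ⊕ ℤ))
    (w : ℤ ⊕ ℤ → ℂ) :
    ∑ i ∈ s, w i • EE t (fr a β i).2 =
      B (∑ n ∈ s.toLeft, w (Sum.inl n) • EE t n) + ∑ m ∈ s.toRight, w (Sum.inr m) • EE t m := by
  conv_lhs => rw [← Finset.toLeft_disjSum_toRight (u := s)]
  rw [Finset.sum_disjSum, map_sum]
  congr 1
  refine Finset.sum_congr rfl fun m _ => ?_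
  rw [map_smul, hB]
  rfl

theorem norm_comb (t : ℝ) (s : Finset ℤ) (c : ℤ → ℂ) :
    ‖∑ n ∈ s, c n • EE t n‖ ^ 2 = ∑ n ∈ s, ‖c n‖ ^ 2 := by
  have h : ∀ n : ℤ, EE t n = bas t n := fun n => (bas_apply t n).symm
  simp_rw [h]
  rw [← inner_self_eq_norm_sq (𝕜 := ℂ), (bas t).orthonormal.inner_sum, map_sum]
  refine Finset.sum_congr rfl fun n _ => ?_
  rw [RCLike.conj_mul]
  norm_cast

theorem sum_split (s : Finset (ℤ ⊕ ℤ)) (w : ℤ ⊕ ℤ → ℂ) :
    ∑ i ∈ s, ‖w i‖ ^ 2 =
      ∑ n ∈ s.toLeft, ‖w (Sum.inl n)‖ ^ 2 + ∑ m ∈ s.toRight, ‖w (Sum.inr m)‖ ^ 2 := by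
  conv_lhs => rw [← Finset.toLeft_disjSum_toRight (u := s)]
  rw [Finset.sum_disjSum]

end

/-- **Exponential Riesz bases.**  For every real `t` which is not an integer, in particular for all
`t ∈ [-1/2, 0)`, the space `L²(ρ_t)` has a Riesz basis of exponentials. -/
theorem result (t : ℝ) (ht : ∀ n : ℤ, t ≠ n) :
    ∃ Λ : Set (ℝ × ℝ), Λ.Countable ∧ Complete (rho t) Λ ∧ RieszSequence (rho t) Λ := by
  classical
  obtain ⟨a, β, A, B, hA, hB, hAB⟩ := operators t ht
  obtain ⟨C1, C2, hC1, hC2, hC⟩ := block_bounds A B hAB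
  refine ⟨range (fr a β), countable_range _, ?_, ?_⟩
  · intro F hF ε hε
    set f := (mem1 hF).toLp _ with hf
    set g := (mem2 hF).toLp _ with hg
    obtain ⟨c, d, h1, h2⟩ := block_onto A B hAB f g
    have hε' : 0 < ε / (2 * C2) := by positivity
    have hap : ∀ z : Lp ℂ 2 (nu t), ∃ s : Finset ℤ,
        ‖z - ∑ n ∈ s, (bas t).repr z n • EE t n‖ ^ 2 < ε / (2 * C2) := by
      intro z
      have h3 := (bas t).hasSum_repr z
      have h4 : Filter.Tendsto (fun s : Finset ℤ => ‖z - ∑ n ∈ s, (bas t).repr z n • EE t n‖ ^ 2)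
          Filter.atTop (nhds 0) := by
        have h5 : Filter.Tendsto (fun s : Finset ℤ => z - ∑ n ∈ s, (bas t).repr z n • EE t n)
            Filter.atTop (nhds 0) := by
          have h6 : Filter.Tendsto (fun s : Finset ℤ => ∑ n ∈ s, (bas t).repr z n • EE t n)
              Filter.atTop (nhds z) := by
            refine Filter.Tendsto.congr (fun s => ?_) h3
            refine Finset.sum_congr rfl fun n _ => ?_
            exact congrArg (fun v => (bas t).repr z n • v) (bas_apply t n)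
          have h7 := h6.const_sub z
          rwa [sub_self] at h7
        have h8 := (h5.norm).pow 2
        simpa using h8
      exact (h4.eventually (gt_mem_nhds hε')).exists
    obtain ⟨L, hL⟩ := hap c
    obtain ⟨R, hR⟩ := hap d
    set w : ℤ ⊕ ℤ → ℂ := Sum.elim (fun n => (bas t).repr c n) (fun m => (bas t).repr d m) with hw
    set S : Finset (ℤ ⊕ ℤ) := L.disjSum R with hS
    refine ⟨S.image (fr a β), Function.extend (fr a β) w 0, ?_, ?_⟩
    · intro p hp
      obtain ⟨i, _, rfl⟩ := Finset.mem_image.1 (Finset.mem_coe.1 hp)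
      exact ⟨i, rfl⟩
    · have hsum : ∀ z, ∑ p ∈ S.image (fr a β), Function.extend (fr a β) w 0 p * expo p z =
          ∑ i ∈ S, w i * expo (fr a β i) z := by
        intro z
        rw [Finset.sum_image (fun i _ j _ h => fr_inj a β h)]
        refine Finset.sum_congr rfl fun i _ => ?_
        rw [(fr_inj a β).extend_apply]
      have hmem := hF.sub (comb_mem t (S.image (fr a β)) (Function.extend (fr a β) w 0))
      set c' := ∑ n ∈ L, (bas t).repr c n • EE t n with hc'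
      set d' := ∑ n ∈ R, (bas t).repr d n • EE t n with hd'
      have hU : (∑ i ∈ S, w i • EE t (fr a β i).1) = c' + A d' := by
        rw [U_eq hA, hS, Finset.toLeft_disjSum, Finset.toRight_disjSum]
        rfl
      have hV : (∑ i ∈ S, w i • EE t (fr a β i).2) = B c' + d' := by
        rw [V_eq hB, hS, Finset.toLeft_disjSum, Finset.toRight_disjSum]
        rfl
      have key := int_sq t hmem (f - (c' + A d')) (g - (B c' + d')) (by
        rw [← hU]
        filter_upwards [Lp.coeFn_sub f (∑ i ∈ S, w i • EE t (fr a β i).1),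
          (mem1 hF).coeFn_toLp, comb_coe t S w (fun i => (fr a β i).1)] with x e1 e2 e3
        rw [e1, Pi.sub_apply, hf, e2, e3, Pi.sub_apply, hsum]
        simp_rw [expo1]) (by
        rw [← hV]
        filter_upwards [Lp.coeFn_sub g (∑ i ∈ S, w i • EE t (fr a β i).2),
          (mem2 hF).coeFn_toLp, comb_coe t S w (fun i => (fr a β i).2)] with x e1 e2 e3
        rw [e1, Pi.sub_apply, hg, e2, e3, Pi.sub_apply, hsum]
        simp_rw [expo2])
      have key' : ∫ z, ‖F z - ∑ p ∈ S.image (fr a β), Function.extend (fr a β) w 0 p * expo p z‖ ^ 2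
          ∂(rho t) = 1 / 2 * (‖f - (c' + A d')‖ ^ 2 + ‖g - (B c' + d')‖ ^ 2) := key
      rw [key']
      have e1 : f - (c' + A d') = (c - c') + A (d - d') := by rw [← h1, map_sub]; abel
      have e2 : g - (B c' + d') = B (c - c') + (d - d') := by rw [← h2, map_sub]; abel
      rw [e1, e2]
      have h3 := (hC (c - c') (d - d')).2
      have h4 : C2 * (‖c - c'‖ ^ 2 + ‖d - d'‖ ^ 2) < C2 * (ε / (2 * C2) + ε / (2 * C2)) := by
        apply mul_lt_mul_of_pos_left _ hC2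
        linarith
      have h5 : C2 * (ε / (2 * C2) + ε / (2 * C2)) = ε := by field_simp; ring
      linarith
  · refine ⟨C1 / 2, C2 / 2, by positivity, by positivity, fun s c hs => ?_⟩
    set S : Finset (ℤ ⊕ ℤ) := s.preimage (fr a β) (fr_inj a β).injOn with hS
    have hsum : ∀ z, ∑ p ∈ s, c p * expo p z = ∑ i ∈ S, c (fr a β i) * expo (fr a β i) z := by
      intro z
      rw [hS, Finset.sum_preimage (fr a β) s (fr_inj a β).injOn (fun p => c p * expo p z)]
      intro p hp hnp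
      exact absurd (hs hp) hnp
    have hsq : ∑ p ∈ s, ‖c p‖ ^ 2 = ∑ i ∈ S, ‖c (fr a β i)‖ ^ 2 := by
      rw [hS, Finset.sum_preimage (fr a β) s (fr_inj a β).injOn (fun p => ‖c p‖ ^ 2)]
      intro p hp hnp
      exact absurd (hs hp) hnp
    set w : ℤ ⊕ ℤ → ℂ := fun i => c (fr a β i) with hw
    set x := ∑ n ∈ S.toLeft, w (Sum.inl n) • EE t n with hx
    set y := ∑ m ∈ S.toRight, w (Sum.inr m) • EE t m with hy
    have key := int_sq t (comb_mem t s c) (x + A y) (B x + y) (by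
      rw [← U_eq (β := β) hA]
      filter_upwards [comb_coe t S w (fun i => (fr a β i).1)] with z e3
      rw [e3, hsum]
      simp_rw [expo1]
      rfl) (by
      rw [← V_eq (a := a) hB]
      filter_upwards [comb_coe t S w (fun i => (fr a β i).2)] with z e3
      rw [e3, hsum]
      simp_rw [expo2]
      rfl)
    have hn : ∑ p ∈ s, ‖c p‖ ^ 2 = ‖x‖ ^ 2 + ‖y‖ ^ 2 := by
      rw [hsq, hx, hy, norm_comb, norm_comb]
      exact sum_split S w
    rw [key, hn]
    obtain ⟨h1, h2⟩ := hC x y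
    constructor <;> linarith

end Pool.Agent.Results.MP_1d4ba1_an.ExponentialRieszBasis
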